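import Mathlib
import Pool.Agent.H855.CM.AbelianSplit

/-!
# The Tate conjecture over number fields for the products of **every** abelian variety with abelian
varieties with one Frobenius element outside of finitely many exceptional slope vectors (all CM fields)

Let `K i` (`i` in any set `I`) be CM fields, for instance **all** CM fields, and let `V i` be the space of
the odd rational functions on the complex embeddings of `K i`, a representation of the automorphisms of
`ℂ`. We fix an isomorphism `ν` of the algebraic closure of `ℚ_p` with `ℂ`; it defines a `p`-adic
valuation `v` of `ℂ` with `v p = 1`. The slope vector of a Weil number `π` for `p ^ a` in `K i` is the
function `x φ = 2 v (φ π) - a` on the complex embeddings `φ` of `K i` (`slopeVector`); it is odd: its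
values at conjugate embeddings are opposite.

Let `π j` (`j` in a finite set `J`) be Weil numbers for the same `q = p ^ a`, any `a > 0`, which generate
fields `L j`, each of which is one of the `K i`. We suppose that the family is *independent*
(`IsIndependent`): the slope vectors `x j` and their translates satisfy no nontrivial linear relation
with rational coefficients (`NoSlopeRelations`). A sufficient condition: the
fields `L j` are good (`IsGoodField`: the odd functions are irreducible, or `[L j : ℚ]` is twice an odd
prime number, or the maximal real subfield has a place of coprime degree, `HasCoprimePlace`), their
normal closures are different, no imaginary quadratic field is contained in two of them, and the slopes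
are good (`HasGoodSlopes`).

Let `k` be a number field, `A` an abelian variety over `k`, and let `γ` be a Frobenius element of the
Galois group `Γ` of `k` at **one** place of good reduction, the residue field having `p ^ a` elements,
for which the characteristic polynomial on the Tate module `V = V_ℓ (A)`, `ℓ ≠ p`, is the product of the
minimal polynomials of the `π j`. Let `B` be **any** abelian variety over `k` with the Tate module `W`,
and `M = H^1(B, ℚ_ℓ)^{⊗ b}(c)` (`cohomologyPower`; the twisted cohomology groups of the powers of `B` are
sums of summands of these), such that the eigenvalues of `γ` on `M` are roots of a rational polynomial,
not zero, all of whose complex roots come from the finite set `Ω` of complex numbers. A number `ρ` comes from the finite set `Ω` of complex numbers (`From p Ω`) if it is not zero and a power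
of it is the product of a power of a conjugate of an element of `Ω`, or of `1`, and of a power of `p`. **Such
a finite set `Ω` exists for every `B`** with good reduction at the place: take one root of each
irreducible factor of the characteristic polynomials of Frobenius on the cohomology of the reduction.
(If the reduction of `B` is bad, take the polynomials for the weight graded pieces.)

Then (`ClassesSplit`) **the classes in `H^j(A ^ r) ⊗ M` which are fixed by an open subgroup of `Γ` are
zero for odd `j`, and linear combinations of products of `m` Tate classes of degree two on `A ^ r` (that
is, of divisor classes, by Faltings) and of Tate classes in `M(-m)` for `j = 2 m`.** The classes in
`H^j(A ^ r) ⊗ M` are the alternating maps of `j` variables from `V ^ r` to `M`. So for all these `A` and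
`B` **the Tate conjecture for `A ^ r × B` (all `r`, over all finite extensions, all codimensions) is
equivalent to the Tate conjecture for `B`.** For instance it is true for `A ^ r × B` if `dim B ≤ 3`. The
hypotheses on `V` (`IsPolarised`) are the Weil pairing and the semisimplicity (Faltings). Nothing is
assumed on the semisimplicity of `M`.

**The theorem: there is a set `E` of at most `|Ω|` pairs `(i, v)`, where `v` is an odd function, not zero,
on the complex embeddings of `K i`, such that this holds for all `ℓ`, all `a`, all independent families
`π j`, all `k`, `A`, `B` and `M` as above, for which no vector of `E` is a combination of the slope
vectors `x j`** (`AbelianOutside`). The set `E` depends only on `ν`, `Ω` and the fields `K i`. If `Ω` is stable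
under the automorphisms of `ℂ` and its elements are nonzero and lie in CM fields or totally real fields
(the set of all Frobenius eigenvalues; `IsStable`), then moreover `∑ w i ≤ |Ω|`, the sum over the
elements `(i, v)` of `E`; here `w i` is twice a lower bound for the dimensions of the nonzero stable
subspaces of `V i`, so `w i = [K i : ℚ]` if `V i` is irreducible, in particular if `K i` is good and
contains no imaginary quadratic field, and `w i = 2` is always possible (`IsWeight`, `IsSmall`).

A vector `v` on the embeddings of a field `K` is a combination of the slope vectors (`IsCombination`)
if it is the sum of the images of the `x j` under equivariant maps, that is,
`v φ = ∑ t φ (j, ψ) * x j ψ` with rational numbers `t φ (j, ψ)` which are invariant under the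
automorphisms of `ℂ`, odd in `ψ`, and zero if the fields `K` and `L j` are unrelated (there are no
nonzero equivariant maps between their odd functions). So

* if `K i` is unrelated to all the `L j` the condition on the elements `(i, v)` of `E` is satisfied:
  apart from at most `|Ω|` fields, and the fields related to them, there are **no** exceptional abelian
  varieties;
* if the `L j` are pairwise unrelated and `K i` is one of them, `L j₀`, the condition is that the slope
  vector `x j₀` is not mapped to `v` by an endomorphism of the representation `V i`; if `V i` is
  absolutely irreducible, that `x j₀` is not on the line of `v`.

(Exceptions are necessary: if `B = A` then there are Tate classes in `H^1(A) ⊗ H^1(B)(1)`.)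

The result `ExceptionalSlopeLines` of an earlier run for this problem supposes that the `K i` are finitely
many fields with pair flips (`PairFlips`; then the `V i` are absolutely irreducible and pairwise
unrelated), and that the characteristic polynomial of `γ` is the product of exactly one minimal
polynomial for each of the `K i`. Here the CM fields are arbitrary, there can be several Weil numbers in
one field, and all finite families in infinitely many fields are considered at the same time.

The proof. For `β` in `Ω` let `g` be the function `σ ↦ v (σ β) - v (conj (σ β))` of the automorphisms `σ` of
`ℂ`, and `M` the rational representation generated by it. Suppose that for some family some power of a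
number that comes from `β` is the corresponding power of a product of conjugates of the `π j`. Computing
valuations, `g` is, up to a factor and a translation, a value `σ ↦ ∑ n (j, ψ) x j (σ ψ)` of the relation
map of the family, where `n (j, ψ)` is the multiplicity of `ψ` minus the one of its conjugate. Suppose
`n ≠ 0`; then `g ≠ 0` as the family is independent. Compose the orthogonal projection to the
representation generated by `n` with the relation map: this is an equivariant map from the odd functions
of the family to `M` which is not zero, hence not zero on the odd functions of one of the fields `K i`,
and there it is given by a vector `v`: the exceptional vector of `β` (`exists_vector`). As the image of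
`V i` in `M` is isomorphic to a nonzero stable subspace of `V i`, `w i` is at most twice the dimension of
`M`, hence at most the number of the conjugates of `β` (`lowerBound_le`). If `g` is a value of the
relation map of **another** family then so are all elements of `M`, in particular the functions
`σ ↦ v (σ φ)`, and choosing the values orthogonal to the relations we see that `v` is a combination of
its slope vectors (`isCombination_of`). So outside of the exceptional vectors all `n` are zero
(`exists_vectorsX`): the products of conjugates of the `π j` which agree with an eigenvalue of `γ` on `M`
up to a root of unity are products of pairs of conjugate numbers (`forces_ofE`). So the components of a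
Tate class in the eigenspaces of `γ` are of this kind; by the semisimplicity, and as the angle rank is
maximal (`angle_ofE`), the Lie algebra of the endomorphisms of `V` which kill all the components is over
a finite extension a product of symplectic and general linear Lie algebras, and the first fundamental
theorem of invariant theory gives the result (`EV.split_of_forces` of the library).
-/

set_option autoImplicit false

namespace Pool.Agent.Results.MP_90d181_ag.ExceptionalVectors

open NumberField Pool.Agent.H855.CM

/-- **The Tate conjecture for `A ^ r × B` is equivalent to the one for `B`, for every abelian variety
`B` whose Frobenius eigenvalues at one place come from the finite set `Ω`, and all abelian varieties `A`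
with one Frobenius element given by an independent family of Weil numbers in the CM fields `K i`, outside
of a set `E` of at most `|Ω|` exceptional vectors**: the Tate classes on `A ^ r × B` are linear
combinations of products of divisor classes on `A ^ r` and Tate classes on `B`. -/
theorem result {p : ℕ} [Fact p.Prime] (ν : PadicAlgCl p ≃+* ℂ) {I : Type}
    (K : I → Type) [∀ i, Field (K i)] [∀ i, NumberField (K i)] [∀ i, IsCMField (K i)]
    (w : I → ℕ) (hw : ∀ i, IsWeight (K i) (w i)) (Ω : Finset ℂ) :
    ∃ E : Finset (Σ i, ((K i →+* ℂ) → ℝ)), IsSmall w Ω E ∧
      AbelianOutside ν K Ω E := by
  obtain ⟨E, hE, h⟩ := exists_vectors_split ν K w hw Ω
  exact ⟨E, hE, h.abelian⟩

end Pool.Agent.Results.MP_90d181_ag.ExceptionalVectors
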