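import Pool.Agent.H852.J.F6

/-!
# The Tate conjecture at every prime for almost all hyperelliptic Jacobians whose Weierstrass points generate
# prescribed fields

Let `K` be a number field and `L i`, `i = 0, ..., n - 1`, ANY finite extensions of `K`, for instance cyclic
extensions, or equal to each other or to `K`. Let `b i j`, `j = 0, ..., r i - 1`, be elements of `L i` which span
`L i` as a vector space over `K`, for instance a basis over `ℤ` of the ring of integers of `L i`, or
a basis of `L i` over `K`. For an integral vector `x` with the coordinates `x (i, j)` let

  `α i = ∑ x (i, j) b i j`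

(`combination`), and for a subset `S` of the indices let `C_S` be the hyperelliptic curve

  `C_S : y ^ 2 = ∏_{i ∈ S} f_i (t)`, `f_i` the minimal polynomial of `α i` over `K`,

(`polynomial`), where the sum of the degrees of the `L i`, `i ∈ S`, is odd and at least three (`Admissible`). So
the algebra of the finite Weierstrass points of `C_S` is a quotient of the product of the `L i`, equal to it for
almost all `x`; for one extension `L` of odd degree the curve is `y ^ 2 = f (t)`, `f` the minimal polynomial of
a random integer of `L`.

**Theorem.** Let `Z` be ANY pure motive over `K`, for instance `H ^ w` of any smooth projective variety, with a lattice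
`τ` over `ℤ_2`. For 100 percent of the integral vectors `x`, ordered by the maximum of the absolute values of
the coordinates, `EveryPrime` is true for all the curves `C_S` and `Z`: for EVERY prime number `ℓ` all Tate
classes on the products `∏ J(C_S) ^ (m S) × Z`, over all admissible `S`, in all degrees, are linear
combinations of products of Tate classes of degree two on the abelian variety (algebraic by Faltings) and Tate
classes of `Z`. So the Tate conjecture is true for all the abelian varieties `∏ J(C_S) ^ (m S)`, and for their
products with `Z` it is EQUIVALENT to the Tate conjecture for `Z`.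

So the Galois group of the polynomial, and the field generated by the points of order two of the Jacobian, can be
prescribed completely (any Galois extension of `K` which is the compositum of the conjugates of the `L i`);
it can be trivial, cyclic or any other realizable group. In the known results for random polynomials the
Galois group is the symmetric group.

The definitions `EveryPrime` and `IsLattice` are those of the module
`Pool.Graph.R_pool_sql_team_seeded_63374d34.Results.MP_640417_ag.HyperellipticEveryPrime`: the data of `EveryPrime`
are the Frobenius polynomials `P v` of the action on the 2-adic Tate modules of the Jacobians (the groups of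
points of the Jacobians are the class groups of the rings `F[x, y]`) and `Q v` of `Z`, pure of weights `1` and
`w`, outside of a finite set of places, and the conclusion concerns, for all `ℓ`, all the representations over
`ℚ_ℓ` with the properties of `V_ℓ` of the abelian variety (Weil pairing, semisimplicity, Frobenius polynomials
`P v`) and all `ℓ`-adic realizations of `Z` (Frobenius polynomials `Q v`).

Idea of the proof. Let `N` be a finite extension of `K` which contains the conjugates of all `b i j` and the square
roots of `-1` and `2`, and over which the Galois group acts trivially modulo four on the lattice. Let `β_s` be the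
conjugates of all the `α i`. If no product of a nonempty set of differences `β_s - β_t` is a square in `N`, there
are automorphisms over `N` which change the sign of the square root of one difference only, and they act
on the 2-adic Tate modules as square roots of transvections modulo four, for the curves for which both `s` and `t`
are branch points, and trivially for the other ones. As for Humbert curves this gives the product of all the
symplectic Lie algebras with component zero on `Z` (`Pool.Agent.H852.J.everyPrime_beta`). The condition is true for
almost all `x`: modulo a prime ideal of `N` with residue field `F_p` the vector of the `β_s` is equidistributed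
in `F_p ^ m`, because the embeddings are linearly independent, and the sum of the quadratic characters
of the product of the differences in a nonempty set of pairs is `O(p ^ (m - 1/2))` by a second moment
computation (`Pool.Agent.H852.J.char_sum`); so the product is a nonsquare with probability near one half, for infinitely
many independent `p`.
-/

set_option autoImplicit false

namespace Pool.Agent.Results.MP_90d181_ag.PrescribedWeierstrassFields

open Polynomial NumberField IsDedekindDomain
open Pool.Agent.Results.MP_640417_ag.HyperellipticEveryPrime (AbsoluteGaloisGroup IsLattice
  EveryPrime)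

/-- The combinations `α i = ∑ x (i, j) b i j` of the elements `b i j`. -/
def combination {n : ℕ} {L : Fin n → Type} [∀ i, Field (L i)] {r : Fin n → ℕ}
    (b : ∀ i, Fin (r i) → L i) (x : (Σ i, Fin (r i)) → ℤ) (i : Fin n) : L i :=
  ∑ j, x ⟨i, j⟩ • b i j

/-- The product of the minimal polynomials of the `α i`, `i ∈ S`, over `K`. -/
noncomputable def polynomial (K : Type) [Field K] {n : ℕ} {L : Fin n → Type} [∀ i, Field (L i)]
    [∀ i, Algebra K (L i)] {r : Fin n → ℕ} (b : ∀ i, Fin (r i) → L i)
    (x : (Σ i, Fin (r i)) → ℤ) (S : Finset (Fin n)) : K[X] :=
  ∏ i ∈ S, minpoly K (combination b x i)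

/-- The sum of the degrees of the `L i`, `i ∈ S`, is odd and at least three. -/
def Admissible (K : Type) [Field K] {n : ℕ} (L : Fin n → Type) [∀ i, Field (L i)]
    [∀ i, Algebra K (L i)] (S : Finset (Fin n)) : Prop :=
  Odd (∑ i ∈ S, Module.finrank K (L i)) ∧ 3 ≤ ∑ i ∈ S, Module.finrank K (L i)

/-- `EveryPrime` for all the curves `C_S`, `S` admissible, and the motive `Z` -/
def Holds {K : Type} [Field K] [NumberField K] {n : ℕ} {L : Fin n → Type} [∀ i, Field (L i)]
    [∀ i, Algebra K (L i)] {r : Fin n → ℕ} (b : ∀ i, Fin (r i) → L i) {d : ℕ}
    (τ : AbsoluteGaloisGroup K →* Matrix (Fin d) (Fin d) ℚ_[2]) (x : (Σ i, Fin (r i)) → ℤ) : Prop :=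
  EveryPrime (fun S : {S : Finset (Fin n) // Admissible K L S} => polynomial K b x S.1) τ

/-- The property `P` holds for 100 percent of the integral vectors, ordered by height: for every `ε > 0` the
number of the vectors `x` with coordinates of absolute value at most `H` for which `P` is false is at
most `ε (2 H + 1) ^ k` for all large `H`, where `k` is the number of the coordinates. -/
def AlmostAll {κ : Type} [Fintype κ] (P : (κ → ℤ) → Prop) : Prop :=
  ∀ ε : ℝ, 0 < ε → ∃ H₀ : ℕ, ∀ H : ℕ, H₀ ≤ H →
    ({x : κ → ℤ | (∀ k, |x k| ≤ H) ∧ ¬ P x}.ncard : ℝ) ≤ ε * (2 * H + 1) ^ Fintype.card κ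

/-- **The Tate conjecture at every prime number for almost all hyperelliptic Jacobians with prescribed fields of
Weierstrass points, and for their products with any motive.** -/
theorem result {K : Type} [Field K] [NumberField K] {n : ℕ} (L : Fin n → Type) [∀ i, Field (L i)]
    [∀ i, Algebra K (L i)] [∀ i, FiniteDimensional K (L i)] (hL : ∃ S, Admissible K L S)
    {r : Fin n → ℕ} (b : ∀ i, Fin (r i) → L i) (hb : ∀ i, Submodule.span K (Set.range (b i)) = ⊤)
    {d : ℕ} (τ : AbsoluteGaloisGroup K →* Matrix (Fin d) (Fin d) ℚ_[2]) (hτ : IsLattice τ) :
    AlmostAll fun x : (Σ i, Fin (r i)) → ℤ => Holds b τ x := by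
  intro ε hε
  obtain ⟨H₀, h⟩ := Pool.Agent.H852.J.everyPrime_fields b hb hL τ hτ ε hε
  refine ⟨H₀, fun H hH => le_trans (le_of_eq ?_) (h H hH)⟩
  have h1 : ∀ F : Finset ((Σ i, Fin (r i)) → ℤ),
      {x : (Σ i, Fin (r i)) → ℤ | (∀ k, |x k| ≤ (H : ℤ)) ∧ ¬ Holds b τ x} = ↑F →
      ({x : (Σ i, Fin (r i)) → ℤ | (∀ k, |x k| ≤ (H : ℤ)) ∧ ¬ Holds b τ x}.ncard : ℝ) = F.card := by
    intro F hF
    rw [hF, Set.ncard_coe_finset]
  refine h1 _ ?_
  rw [Finset.coe_filter]
  ext x
  rw [Set.mem_ofPred_eq, Set.mem_ofPred_eq, Pool.Agent.H852.J.mem_boxK]
  simp only [abs_le]
  exact Iff.rfl

end Pool.Agent.Results.MP_90d181_ag.PrescribedWeierstrassFields
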