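import Pool.Agent.H852.J.B18

/-!
# The Tate conjecture over the rational numbers for the Jacobians in the towers of the polynomials
# `x (x - s) ^ (d - 1) + s` of odd prime degree `d`

Let `d` be an odd prime number, `s` an integer prime to `d` which is not a `d`-th power, and

  `φ(x) = x (x - s) ^ (d - 1) + s`,

with the critical points `s` (fixed by `φ`) and `γ = s / d`. Let `φ^N` be the iterates and

  `C_N : y ^ 2 = φ^N(x)`, `N ≥ 1`,

a hyperelliptic curve of genus `(d ^ N - 1) / 2`. The maps `C_N → C_(N - 1) → ... → C_1` of degree `d` show that
the Jacobian `J(C_N)` is isogenous to the product of the abelian varieties `B_1, ..., B_N`, where `B_i` is the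
complement of `J(C_(i - 1))` in `J(C_i)`, of dimension `(d ^ i - d ^ (i - 1)) / 2`. For `i ≥ 2` these are not the
Jacobians of hyperelliptic curves in a natural way (they are varieties of Prym type with a polarization which is
not principal).

**Theorem.** Assume `d ≢ 1` modulo `8`, or that `d` is not a square modulo some prime divisor `q` of `s`. Then for
all `N ≥ 1`:

(1) The property `EveryPrime` holds for `C_N` (with `Z` a point): for EVERY prime number `ℓ` the Tate classes on
all powers of `J(C_N)`, that is on all the products `∏ B_i ^ (m i)`, are linear combinations of products of Tate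
classes of degree two, which are algebraic by Faltings. So the Tate conjecture, at every `ℓ` and in all
degrees, is true for all powers of these Jacobians and all the factors `B_i`.

(2) Let `Z` be ANY pure motive over the rational numbers, for instance `H ^ w` of any smooth projective
variety, with a lattice `τ` over `ℤ_2` (`IsLattice`) which is unramified outside `2 d s`. Then `EveryPrime` holds
for `Z` and `C_N`: for EVERY prime number `ℓ` all Tate classes on `J(C_N) ^ m × Z` are combinations of products
of Tate classes of degree two on the abelian variety and Tate classes of `Z`. So the Tate conjecture for all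
these products is EQUIVALENT to the Tate conjecture for `Z`.

There is no hypothesis on the curves. The Galois groups of the polynomials `φ^N` are subgroups of iterated wreath
products, the Jacobians are not simple, and the factors `B_i`, `i ≥ 2`, are outside of the range of the criteria
for hyperelliptic Jacobians with a large Galois group or with a transitive graph of nodes.

The definitions `EveryPrime` and `IsLattice` are those of the module
`Pool.Graph.R_pool_sql_team_seeded_63374d34.Results.MP_640417_ag.HyperellipticEveryPrime`. There is no exception in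
`EveryPrime` for `ℓ`; its data are the Frobenius polynomials `P v` of the action on the 2-adic Tate modules of the
Jacobians (the groups of points of the Jacobians are the class groups of the rings `F[x, y]`) and `Q v` of
`Z`, pure of weights `1` and `w`, outside of a finite set of places, and the conclusion concerns all the
representations `V` over `ℚ_ℓ` with the properties of `V_ℓ(A)` for the abelian variety `A` (Weil pairing,
semisimplicity, Frobenius polynomials `P v`) and all `ℓ`-adic realizations of `Z` (Frobenius polynomials `Q v`).

Idea of the proof. The critical orbit `φ^n(γ) = s N_n / d ^ (d ^ n)` has positive odd numerators `N_n` which are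
prime to `s d`, pairwise coprime (because `0 ↦ s ↦ s ↦ ...`) and not squares for `n ≥ 1`. So for each level
`m ≥ 1` there is a prime number `p` which divides `N_m` to an odd power and no other `N_n`. At `p` exactly two
roots `a, b` of `φ^m` collide, both in the same fibre of `φ^m → φ^(m - 1)`, and the roots of `φ^n`, `n > m`, collide
only if they lie over `a, b`. The inertia group at `p` contains an involution exchanging `a` and `b`, and an element
`σ` of the Galois group, lifting it, whose action on the points of order FOUR is computed by square roots of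
differences of roots: on the lattice of `B_m` it is a square root of the transvection in the class of the
divisor `a - b`, and modulo two it permutes the classes over `a` and `b` in the lattices of `B_n`, `n > m`; it is
trivial on those of `B_n`, `n < m`, and on `Z`. Because `d` is prime, the monodromy of `φ^n → φ^(n - 1)` is
primitive and the graphs of the conjugates of `a - b` in each fibre are connected; the commutators of the
elements at different places separate the fibres (a tower of links, `Pool.Agent.H852.J.tower_tan`). So the
image of Galois contains, infinitesimally, the product of the symplectic Lie algebras of all the `B_i`, with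
component zero on `Z`. The irreducibility of `φ^n` comes from a prime number `p` whose multiplicity in `s` is
prime to `d`, where all the roots have the valuation `v(s) / d ^ n`. The passage from `2` to all prime numbers
`ℓ` is the one of helper197 (`Pool.Agent.N197.AP.main20`).
-/

set_option autoImplicit false

namespace Pool.Agent.Results.MP_90d181_ag.PrimeDegreeTowers

open Polynomial NumberField IsDedekindDomain
open Pool.Agent.Results.MP_640417_ag.HyperellipticEveryPrime (AbsoluteGaloisGroup IsLattice
  EveryPrime)

/-- The conditions on the parameters: `d` is an odd prime number, the integer `s ≠ 0` is prime to `d` and not a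
`d`-th power, and `d` is not `1` modulo `8`, or not a square modulo some prime divisor of `s`. -/
structure Admissible (s : ℤ) (d : ℕ) : Prop where
  prime : d.Prime
  odd : Odd d
  ne_zero : s ≠ 0
  coprime : IsCoprime s (d : ℤ)
  not_pow : ∀ c : ℤ, c ^ d ≠ s
  nonsquare : d % 8 ≠ 1 ∨ ∃ q : ℕ, q.Prime ∧ (q : ℤ) ∣ s ∧ ¬ IsSquare (d : ZMod q)

/-- The polynomial `x (x - s) ^ (d - 1) + s`. -/
noncomputable def phi (s : ℤ) (d : ℕ) : ℚ[X] := X * (X - C (s : ℚ)) ^ (d - 1) + C (s : ℚ)

/-- the `n`-th iterate of the polynomial `φ` -/
noncomputable def iterate (φ : ℚ[X]) : ℕ → ℚ[X]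
  | 0 => X
  | n + 1 => (iterate φ n).comp φ

/-- the matrix `τ g` is congruent to `1` modulo four -/
def TrivialModFour {d : ℕ} (τ : AbsoluteGaloisGroup ℚ →* Matrix (Fin d) (Fin d) ℚ_[2])
    (g : AbsoluteGaloisGroup ℚ) : Prop :=
  ∀ a b, ‖(τ g - 1) a b‖ < 1 / 2

/-- The lattice of `Z` is unramified at the place `v`, modulo four: there is a finite Galois extension `N` of the
rational numbers, unramified at `v`, such that the Galois group over `N` acts trivially modulo four. -/
def Unramified {d : ℕ} (τ : AbsoluteGaloisGroup ℚ →* Matrix (Fin d) (Fin d) ℚ_[2])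
    (v : HeightOneSpectrum (𝓞 ℚ)) : Prop :=
  ∃ (N : IntermediateField ℚ (AlgebraicClosure ℚ)) (_ : NumberField N), Normal ℚ N ∧
    v.asIdeal.ramificationIdxIn (𝓞 N) = 1 ∧
    ∀ g : AbsoluteGaloisGroup ℚ, (∀ x : N, g x = x) → TrivialModFour τ g

theorem iterate_eq (s : ℤ) (d n : ℕ) : iterate (phi s d) n =
    Pool.Agent.H852.J.comps (fun _ => Pool.Agent.H852.J.phi (s : ℚ) d) n := by
  induction n with
  | zero => rfl
  | succ n ih =>
    rw [iterate, ih, Pool.Agent.H852.J.comps]
    rfl

/-- **The Tate conjecture at every prime number for the towers of the polynomials `x (x - s) ^ (d - 1) + s`.** -/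
theorem result (s : ℤ) (d : ℕ) (h : Admissible s d) (N : ℕ) (hN : 1 ≤ N) :
    EveryPrime (fun _ : Unit => iterate (phi s d) N)
      (1 : AbsoluteGaloisGroup ℚ →* Matrix (Fin 1) (Fin 1) ℚ_[2]) ∧
    ∀ (k : ℕ) (τ : AbsoluteGaloisGroup ℚ →* Matrix (Fin k) (Fin k) ℚ_[2]), IsLattice τ →
      (∀ v : HeightOneSpectrum (𝓞 ℚ), ((2 * d * s : ℤ) : 𝓞 ℚ) ∉ v.asIdeal → Unramified τ v) →
      EveryPrime (fun _ : Unit => iterate (phi s d) N) τ := by
  classical
  have hd3 : 3 ≤ d := by
    have h1 := h.prime.two_le
    rcases h1.lt_or_eq with h5 | h5
    · exact h5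
    · have h6 := h.odd
      rw [← h5] at h6
      exact absurd h6 (by decide)
  have hs0 : (s : ℚ) ≠ 0 := Int.cast_ne_zero.2 h.ne_zero
  have hpl := fun m (hm : 1 ≤ m) =>
    Pool.Agent.H852.J.exists_critV h.ne_zero hd3 h.odd h.coprime h.nonsquare m hm
  have horb : ∀ n, 1 ≤ n → Pool.Agent.H852.J.orb (s : ℚ) d n ≠ 0 := by
    intro n hn h1
    obtain ⟨v, hv, -⟩ := hpl n hn
    have h2 := (hv n).odd
    rw [h1, map_zero, WithZero.log_zero] at h2
    exact absurd h2 (by decide)
  have hC : Pool.Agent.H852.J.CompHyp (fun _ => Pool.Agent.H852.J.phi (s : ℚ) d) :=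
    Pool.Agent.H852.J.compHyp_phi h.prime h.odd hs0 horb
  have hyp : ∀ n, Pool.Agent.N171.Hyp
      (Pool.Agent.H852.J.rtA (fun _ => Pool.Agent.H852.J.phi (s : ℚ) d) n) := fun n => hC.hyp n
  obtain ⟨v₀, hv₀, hv₀'⟩ := Pool.Agent.H852.J.exists_irr_place h.ne_zero h.odd h.not_pow
  have key : ∀ (k : ℕ) (τ : AbsoluteGaloisGroup ℚ →* Matrix (Fin k) (Fin k) ℚ_[2]),
      IsLattice τ → (∀ v : HeightOneSpectrum (𝓞 ℚ), ((2 * d * s : ℤ) : 𝓞 ℚ) ∉ v.asIdeal →
        Unramified τ v) → EveryPrime (fun _ : Unit => iterate (phi s d) N) τ := by
    intro k τ hτ hun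
    obtain ⟨t, ht⟩ := Pool.Agent.H852.J.exists_lat τ hτ.2
    rw [iterate_eq]
    refine Pool.Agent.H852.J.everyPrime_of_links hC hN
      (fun n _ x y hx hy => Pool.Agent.H852.J.comps_phi_trans h.prime hd3 hs0 hv₀ hv₀' n x y hx hy)
      τ hτ t ht (fun m hm hmN => ?_) (fun n _ => Or.inl (by
        rw [Pool.Agent.H852.J.phi_natDegree _ h.prime.two_le]
        exact h.prime))
    obtain ⟨v, hv, hv2⟩ := hpl m hm
    exact Pool.Agent.H852.J.link_of_place hC hmN
      (Pool.Agent.H852.J.nodePlace_of_critV hd3 hC hm hmN (hv N)) t
      (Pool.Agent.H852.J.unramified_lat (hun v hv2) ht)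
  exact ⟨key 1 1 (Pool.Agent.H852.J.isLattice_one 1)
    fun v _ => Pool.Agent.H852.J.unramified_one 1 v, key⟩

end Pool.Agent.Results.MP_90d181_ag.PrimeDegreeTowers
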