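import Mathlib
import Pool.Agent.H855.HG.TNFMain
import Pool.Agent.H855.HG.Cyclo

/-!
# The conjecture of Tate for the products of **every** variety over a number field with the varieties of CM
type: finitely many exceptional vectors

Let `K i` (`i` in any set `I`) be CM fields, for instance **all** CM fields. A function `v` on the
complex embeddings of a field is odd if `v (conj φ) = - v φ`. A CM type `Φ` of `K i` is the same
thing as the odd function `x` with the value `1` on `Φ` and `- 1` on the conjugate embeddings. Let
`w i / 2` be a lower bound for the dimensions of the nonzero spaces of odd rational functions on the
embeddings of `K i` which are stable under the automorphisms of `ℂ`: `w i = 2` is always possible,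
and `w i = [K i : ℚ]` if the space of all odd functions is irreducible (`IsWeight`).

**Galois types.** Let `L` be a number field contained in `ℂ`, `ℓ` a prime number, and let `Γ` be the
absolute Galois group of `L`. We use an isomorphism of `ℚ̄_ℓ` with `ℂ` (only its restriction `ι` to
`ℚ_ℓ` appears in the statement). By the theorem of Artin the `ℓ`-adic cohomology of a smooth
projective variety `Y` over `L` is the rational Betti cohomology with coefficients extended to
`ℚ_ℓ`; so `Y` is given by a rational vector space `ℚ^B` with its Hodge operator (multiplication by
`p - q` on `H^(p, q)`) and the action of `Γ` on `ℚ_ℓ^B` (`GaloisSpace`).

The algebraic Hecke characters of the finite extensions of `L` (Weil, Serre) give characters of open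
subgroups of `Γ` with values in `ℚ̄_ℓ = ℂ`, which are determined, on some smaller subgroup of finite
index, by their infinity types. We write the infinity type as a pair `(m, d)`, where the integer `m`
is the weight and `d` is a function on the automorphisms of `ℂ`, such that the character of a
one-dimensional piece of the cohomology in degree `m`, whose conjugate under `σ` has the type `(p,
q)`, has the type `(m, d)` with `d σ = p - q`; the characters and their formal properties (products,
the cyclotomic character, the character is determined by the type and conversely) are the structure
`HeckeCharacters`. A vector `w` of the cohomology with coefficients in `ℚ̄_ℓ = ℂ` has the Galois
type `(m, d)` (`HasGaloisType`) if it is homogeneous of degree `m` and a subgroup of finite index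
acts on it through the character of the type `(m, d)`. These vectors generate the `ℓ`-adic part of
CM type (`galPart`). The Tate classes of codimension `j` are the vectors with the Galois type `(2 j,
0)` and with coefficients in `ℚ_ℓ`.

**Hodge types.** The vector `w` has the types `d` (`HasTypes`) if for each automorphism `σ` of the
field `ℂ` the conjugate `σ w` (the conjugate of the coordinates in a rational basis) is a sum of
classes of types `(p, q)` with `p - q = d σ`. These vectors generate the part of CM type (`cmPart`).
The Hodge classes have the types `d = 0`. For arbitrary `Y` no relation between the Hodge types and
the Galois types is known.

**The varieties `X`.** Let `x j` be integral odd functions on the complex embeddings of fields `L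
j`, each one of the `K i`, `j` in a finite set. Let `X` be a smooth projective variety over `L` of
CM type (`HasCM`): the cohomology is generated by vectors which have Hodge types `d` and a Galois
type `(m, d)` with the same `d` (the theorem of Shimura and Taniyama says that this is true for
abelian varieties with complex multiplication). We suppose that for all vectors with types `d` a
multiple of `d` is a sum `σ ↦ ∑ m (j, ψ) * x j (σ ψ)` over the embeddings `ψ` of the fields `L j`
(`IsGeneratedBy`). For instance `X` can be **any** abelian variety which over a finite extension of
`L` is isogenous to a product of powers of abelian varieties of CM types `(L j, Φ j)`, or a variety
whose cohomology is built from such abelian varieties, like the Fermat hypersurfaces or K3 surfaces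
with complex multiplication. The Hodge classes on `X` can be exotic (not polynomials in divisor
classes).

**The theorem.** For every `Y` there is a finite set `E` of pairs `(i, v)`, where `v` is an odd
function, not zero, on the complex embeddings of `K i`, which depends only on `Y`, `ℓ` and the
fields `K i`, with the following properties.

* The vectors `v` come from the Galois types of `Y`, and `|E| + t ≤ c`, where `t` is the dimension
  of the space of the Tate classes (of all codimensions), and `c` the dimension of the `ℓ`-adic part
  of CM type, of the cohomology of `Y` (`IsSmallForGalois`); so `|E| ≤ b - t`, where `b` is the sum
  of the Betti numbers of `Y`, and `E` is **empty** if the `ℓ`-adic part of CM type consists of Tate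
  classes.
* For all families `x j` such that no vector of `E` is a combination of the `x j`, and for **all**
  `X` as above (`TateConjectureOnProducts`):
  1. The Tate classes of codimension `j` on `X × Y` are exactly the sums of products of Tate classes
     on `X` and `Y`. Let the conjecture of Tate be true for `X`, in all codimensions; since `X` is
     of CM type this is equivalent to the Hodge conjecture for `X` (Pohlmann).
  2. **The algebraic classes (with coefficients in `ℚ_ℓ`) of codimension `j` on `X × Y` are exactly
     the sums of products of Tate classes of codimension `i` on `X` and algebraic classes of
     codimension `j - i` on `Y`.**
  3. **The conjecture of Tate is true in codimension `j` for `X × Y` if and only if it is true for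
     `Y` in the codimensions `j - i`, for all `i` such that there are nonzero Tate classes of
     codimension `i` on `X`; hence it is true for `X × Y` (in all codimensions) if and only if it is
     true for `Y`.**

A vector `v` on the embeddings of a field `K` is a combination of the `x j` (`IsComb`) if it is the
sum of the images of the `x j` under equivariant maps: `v φ = ∑ t φ (j, ψ) * x j ψ` with rational
numbers `t φ (j, ψ)` which are invariant under the automorphisms of `ℂ`, odd in `ψ`, and zero if the
fields `K` and `L j` are unrelated (there are no nonzero equivariant maps between their odd
functions). So if the fields of the elements of the set of exceptional vectors are unrelated to the
`L j` the condition is satisfied; and if the odd functions on the embeddings of `K i` are absolutely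
irreducible an element `(i, v)` excludes at most one CM type `Φ` of `K i` and its conjugate, for the
varieties `X` generated by one CM type of `K i`. (For the items on sums of products exceptions are
necessary: `X` and `Y` can have common simple factors of their cohomology, and then there are Hodge
and Tate classes on `X × Y` which are not sums of products.)

So if `X` and `Y` are abelian varieties over `L`, `X` with complex multiplication, question 1 for
the abelian variety `X × Y` (for all `i`) is reduced to `X` and `Y`, outside of the exceptional
vectors. For instance let `Y` be **any** abelian variety with `dim Y ≤ 3`: then the conjecture of
Tate is true for `Y` (Faltings for divisors, and hard Lefschetz); so it is true for the abelian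
varieties `X × Y`, for all `X` with complex multiplication which satisfy it (for instance if the
Hodge classes on `X` are generated by divisors, or if `dim X ≤ 3`, or if they are Weil classes which
are known to be algebraic) outside of the exceptional vectors, of which there are less than `2 ^ (2
dim Y)`. Here `Y` may have arbitrary common isogeny factors with other varieties `X`, and `X` may
have exotic Tate classes.

The result `ExceptionalVectors` (on this page) and its predecessors have as first factor an abelian
variety for which one Frobenius element has independent eigenvalues, so that all Tate classes on the
first factor are products of divisor classes, and they are about Tate classes only. Here the first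
factor has complex multiplication, its Tate classes can be exotic, the exceptional vectors are
defined by the infinity types of the Hecke characters and not by slopes, and the theorem describes
also the algebraic classes. The result `TimesCMVarieties` on MP_6c781a_ag uses the same engine for
the comparison of Tate classes with Hodge classes; it has no algebraic classes.

The framework (`CyclesTimes`): the spaces generated by the algebraic classes on `X`, `Y`, `X × Y`,
products, and contractions with algebraic classes on `X` (push-forward of the product with the
pull-back), the intersection form of `X`, Poincaré duality.

The proof. The spaces of the vectors with given Galois types `(m, d)` are linearly independent,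
since different types have different characters on each subgroup of finite index (`galSpace_indep`);
so there are at most `c' - t` nonzero `d` for `Y` (`card_galTypes`). Take a basis `e k` of the
cohomology of `X` of vectors with the types `(m k, d k)`, and write a Tate class of codimension `j`
on `X × Y` as `∑ e k ⊗ y k`. Then the `y k` have the Galois types `(2 j - m k, - d k)`
(`isTateOfProducts`). Some multiple of `d k` is a sum of values `x j (σ ψ)`; since the functions `x
j` are odd, `- d k` is the value of an odd relation with rational coefficients. For each `d` which
is such a value for some family, there is one vector `v` (`exists_vector`) whose translates are
combinations of the translates of `d`; and if another family has `d` as a value of a relation then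
`v` is a combination of that family (`isComb_of`: one projects orthogonally to the space of the
trivial relations). So outside of the exceptional vectors `d k = 0` or `y k = 0` for all `k`; then
`m k` is even and `e k` and `y k` are Tate classes with coefficients in `ℂ`, and one descends to
`ℚ_ℓ` with the rows and columns of the class. Duality for the Tate classes on `X`
(`exists_dual_tate`): a vector `e k` which has a nonzero product with a Tate class of codimension
`i` has the Galois type `(2 (n - i), 0)`, since the intersection form is equivariant; so it is a
combination of Hodge classes, which are Tate classes. With dual bases of the spaces of Tate classes
of codimension `i` and `n - i` on `X` one computes the components on `Y` of an algebraic class on `X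
× Y` by contractions (`algP_eq_span`). The theorem of Pohlmann for `X` (`hodgeR_eq_tate`: the Hodge
classes generate the Tate classes): a space stable under the automorphisms of `ℂ`, whose fixed field
is `ℚ` (`exists_rat_of_fixed`), is generated by rational vectors (`descent`).
-/

set_option autoImplicit false

namespace Pool.Agent.Results.MP_90d181_ag.TimesCMVarieties

open NumberField Pool.Agent.H855.CM Pool.Agent.H855.HG

/-- **The conjecture of Tate for the products `X × Y` of every smooth projective variety `Y` over a number
field `L`, for instance an abelian variety, with all varieties `X` of CM type outside of finitely many exceptional vectors.** -/
theorem result (L : Type) [Field L] [NumberField L] (ℓ : ℕ) [Fact ℓ.Prime] (ι : ℚ_[ℓ] →+* ℂ)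
    (A : HeckeCharacters (Field.absoluteGaloisGroup L) ι (cyclo L ℓ))
    {I : Type} (K : I → Type) [∀ i, Field (K i)] [∀ i, NumberField (K i)]
    [∀ i, IsCMField (K i)] (B : Type) [Fintype B]
    (Y : GaloisSpace (Field.absoluteGaloisGroup L) ℚ_[ℓ] B) :
    ∃ E : Finset (Σ i, ((K i →+* ℂ) → ℝ)), IsSmallForGalois A Y E ∧
      ForAllWithCM A K E (fun _ _ X => TateConjectureOnProducts (cyclo L ℓ) X Y) :=
  exists_vectors_tnf K A Y

end Pool.Agent.Results.MP_90d181_ag.TimesCMVarieties
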